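import Pool.Agent.UTR.Stmts
import Pool.Agent.Helper64_FR.Basic
import Pool.Agent.Helper64_FR.Rot

/-!
# Row GR2: the rotation identity for the Gram matrix
-/

open MeasureTheory Matrix Finset
open scoped ComplexConjugate

namespace Pool.Agent.UTR.H10

open Pool.Agent.Helper64_FR Pool.Agent.UTR

variable {n : ℕ}

theorem op_inner (ρ : URep n) (g : UU n) (x y : ρ.Sp) :
    (inner ℂ (ρ.op g x) (ρ.op g y) : ℂ) = inner ℂ x y := by
  rw [← ContinuousLinearMap.adjoint_inner_right, ← ContinuousLinearMap.star_eq_adjoint,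
    ρ.op_star, ← mul_apply_eq_comp, ρ.op_inv_mul, one_apply_eq_self]

theorem op_left {ρ : URep n} {D : Matrix (Fin n) (Fin n) ℂ →ₗ[ℂ] (ρ.Sp →L[ℂ] ρ.Sp)}
    (hD : IsDer ρ D) (h : UU n) {l : Fin n}
    (hl : ∀ m, (h : Matrix (Fin n) (Fin n) ℂ) m l = if m = l then 1 else 0) (i : Fin n)
    (x : ρ.Sp) : ρ.op h (D (EE i l) x) =
      ∑ k, (h : Matrix (Fin n) (Fin n) ℂ) k i • D (EE k l) (ρ.op h x) := by
  have h1 := congrArg (fun T : ρ.Sp →L[ℂ] ρ.Sp => T x) (hD.conj_eq h (EE i l))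
  have h2 : ρ.op h (D (EE i l) x) =
      D ((h : Matrix (Fin n) (Fin n) ℂ) * EE i l * star (h : Matrix (Fin n) (Fin n) ℂ))
        (ρ.op h x) := h1
  rw [h2, conj_EE, map_sum, ContinuousLinearMap.sum_apply]
  refine Finset.sum_congr rfl fun k _ => ?_
  rw [map_sum, ContinuousLinearMap.sum_apply, Finset.sum_eq_single l]
  · rw [hl l, if_pos rfl, map_one, mul_one, map_smul]
    rfl
  · intro m _ hm
    rw [hl m, if_neg hm, map_zero, mul_zero, zero_smul, map_zero]
    rfl
  · intro h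
    exact absurd (Finset.mem_univ _) h

theorem op_right {ρ : URep n} {D : Matrix (Fin n) (Fin n) ℂ →ₗ[ℂ] (ρ.Sp →L[ℂ] ρ.Sp)}
    (hD : IsDer ρ D) (h : UU n) {l : Fin n}
    (hl : ∀ m, (h : Matrix (Fin n) (Fin n) ℂ) m l = if m = l then 1 else 0) (j : Fin n)
    (x : ρ.Sp) : ρ.op h (D (EE l j) x) =
      ∑ m, conj ((h : Matrix (Fin n) (Fin n) ℂ) m j) • D (EE l m) (ρ.op h x) := by
  have h1 := congrArg (fun T : ρ.Sp →L[ℂ] ρ.Sp => T x) (hD.conj_eq h (EE l j))
  have h2 : ρ.op h (D (EE l j) x) =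
      D ((h : Matrix (Fin n) (Fin n) ℂ) * EE l j * star (h : Matrix (Fin n) (Fin n) ℂ))
        (ρ.op h x) := h1
  rw [h2, conj_EE, map_sum, ContinuousLinearMap.sum_apply, Finset.sum_eq_single l]
  · rw [map_sum, ContinuousLinearMap.sum_apply]
    refine Finset.sum_congr rfl fun m _ => ?_
    rw [hl l, if_pos rfl, one_mul, map_smul]
    rfl
  · intro k _ hk
    rw [map_sum, ContinuousLinearMap.sum_apply]
    refine Finset.sum_eq_zero fun m _ => ?_
    rw [hl k, if_neg hk, zero_mul, zero_smul, map_zero]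
    rfl
  · intro h
    exact absurd (Finset.mem_univ _) h

theorem op_T {ρ : URep n} {D : Matrix (Fin n) (Fin n) ℂ →ₗ[ℂ] (ρ.Sp →L[ℂ] ρ.Sp)}
    (hD : IsDer ρ D) (h : UU n) {l : Fin n}
    (hl : ∀ m, (h : Matrix (Fin n) (Fin n) ℂ) m l = if m = l then 1 else 0) (i j : Fin n)
    {v : ρ.Sp} (hv : ρ.op h v = v) : ρ.op h (Tz ρ D i j l v) =
      ∑ k, ∑ m, ((h : Matrix (Fin n) (Fin n) ℂ) k i *
        conj ((h : Matrix (Fin n) (Fin n) ℂ) m j)) • Tz ρ D k m l v := by
  change ρ.op h (D (EE i l) (D (EE l j) v)) = _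
  rw [op_left hD h hl, op_right hD h hl, hv]
  refine Finset.sum_congr rfl fun k _ => ?_
  rw [map_sum, Finset.smul_sum]
  refine Finset.sum_congr rfl fun m _ => ?_
  rw [map_smul, smul_smul]
  rfl

/-! ### the reflections -/

theorem rf_i {i j : Fin n} (hij : i ≠ j) (t : ℝ) (k : Fin n) :
    rf i j t k i = if k = i then ((1 - 2 / (1 + t ^ 2) : ℝ) : ℂ) else
      if k = j then ((-(2 / (1 + t ^ 2) * t) : ℝ) : ℂ) else 0 := by
  have yi : yv i j t i = 1 := by simp [yv, hij]
  have yj : yv i j t j = t := by simp [yv, hij.symm]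
  rw [rf_apply, yi]
  by_cases h1 : k = i
  · rw [if_pos h1, if_pos h1, h1, yi]
    push_cast
    ring
  · rw [if_neg h1, if_neg h1]
    by_cases h2 : k = j
    · rw [if_pos h2, h2, yj]
      push_cast
      ring
    · rw [if_neg h2, yv_other t h1 h2]
      ring

theorem rf_j {i j : Fin n} (hij : i ≠ j) (t : ℝ) (k : Fin n) :
    rf i j t k j = if k = i then ((-(2 / (1 + t ^ 2) * t) : ℝ) : ℂ) else
      if k = j then ((1 - 2 / (1 + t ^ 2) * t * t : ℝ) : ℂ) else 0 := by
  have yi : yv i j t i = 1 := by simp [yv, hij]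
  have yj : yv i j t j = t := by simp [yv, hij.symm]
  rw [rf_apply, yj]
  by_cases h1 : k = i
  · have h2 : k ≠ j := by
      rw [h1]
      exact hij
    rw [if_neg h2, if_pos h1, h1, yi]
    push_cast
    ring
  · rw [if_neg h1]
    by_cases h2 : k = j
    · rw [if_pos h2, if_pos h2, h2, yj]
      push_cast
      ring
    · rw [if_neg h2, if_neg h2, yv_other t h1 h2]
      ring

theorem sum_two {V : Type*} [AddCommGroup V] [Module ℂ V] {i j : Fin n} (hij : i ≠ j) (a b : ℂ)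
    (c : Fin n → ℂ) (hc : ∀ k, c k = if k = i then a else if k = j then b else 0)
    (X : Fin n → V) : ∑ k, c k • X k = a • X i + b • X j := by
  have h1 : ∀ k, c k • X k = (if k = i then a • X i else 0) + (if k = j then b • X j else 0) := by
    intro k
    rw [hc k]
    by_cases h1 : k = i
    · have h2 : k ≠ j := by
        rw [h1]
        exact hij
      rw [if_pos h1, if_pos h1, if_neg h2, add_zero, h1]
    · rw [if_neg h1, if_neg h1, zero_add]
      by_cases h2 : k = j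
      · rw [if_pos h2, if_pos h2, h2]
      · rw [if_neg h2, if_neg h2, zero_smul]
  rw [Finset.sum_congr rfl fun k _ => h1 k, Finset.sum_add_distrib, Finset.sum_ite_eq',
    Finset.sum_ite_eq', if_pos (Finset.mem_univ _), if_pos (Finset.mem_univ _)]

/-- the sum in `op_T` for two real columns supported on `{i, j}` -/
theorem sum_four {V : Type*} [AddCommGroup V] [Module ℂ V] {i j : Fin n} (hij : i ≠ j)
    (a b a' b' : ℝ) (c c' : Fin n → ℂ)
    (hc : ∀ k, c k = if k = i then (a : ℂ) else if k = j then (b : ℂ) else 0)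
    (hc' : ∀ k, c' k = if k = i then (a' : ℂ) else if k = j then (b' : ℂ) else 0)
    (X : Fin n → Fin n → V) : ∑ k, ∑ m, (c k * conj (c' m)) • X k m =
      ((a * a' : ℝ) : ℂ) • X i i + ((a * b' : ℝ) : ℂ) • X i j + ((b * a' : ℝ) : ℂ) • X j i +
        ((b * b' : ℝ) : ℂ) • X j j := by
  have h1 : ∀ m, conj (c' m) = if m = i then (a' : ℂ) else if m = j then (b' : ℂ) else 0 := by
    intro m
    rw [hc' m]
    split_ifs
    · exact Complex.conj_ofReal _
    · exact Complex.conj_ofReal _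
    · exact map_zero _
  have h2 : ∀ k, ∑ m, (c k * conj (c' m)) • X k m = c k • ((a' : ℂ) • X k i + (b' : ℂ) • X k j) := by
    intro k
    rw [← sum_two hij (a' : ℂ) (b' : ℂ) (fun m => conj (c' m)) h1 (fun m => X k m),
      Finset.smul_sum]
    exact Finset.sum_congr rfl fun m _ => by rw [smul_smul]
  rw [Finset.sum_congr rfl fun k _ => h2 k, sum_two hij (a : ℂ) (b : ℂ) c hc]
  push_cast
  rw [smul_add, smul_add, smul_smul, smul_smul, smul_smul, smul_smul]
  abel

theorem rfU_l {i j : Fin n} (hij : i ≠ j) (t : ℝ) {l : Fin n} (hi : l ≠ i) (hj : l ≠ j) (m : Fin n) :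
    ((rfU hij t : UU n) : Matrix (Fin n) (Fin n) ℂ) m l = if m = l then 1 else 0 := by
  change rf i j t m l = _
  rw [rf_apply, yv_other t hi hj, mul_zero, mul_zero, sub_zero]

/-! ### the torus -/

/-- the diagonal matrix with entry `z` at `i` -/
noncomputable def dg (i : Fin n) : UU n :=
  ⟨Matrix.diagonal fun k => if k = i then Complex.I else 1, by
    rw [Matrix.mem_unitaryGroup_iff, Matrix.star_eq_conjTranspose, Matrix.diagonal_conjTranspose,
      Matrix.diagonal_mul_diagonal, ← Matrix.diagonal_one]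
    congr 1
    funext k
    by_cases h : k = i
    · simp [h]
    · simp [h]⟩

theorem dg_mem (i : Fin n) : dg i ∈ UB ({i} : Finset (Fin n)) := by
  have key : ∀ p q : Fin n, (p ∉ ({i} : Finset (Fin n)) ∨ q ∉ ({i} : Finset (Fin n))) →
      (Matrix.diagonal fun k => if k = i then Complex.I else 1 : Matrix (Fin n) (Fin n) ℂ) p q =
        if p = q then 1 else 0 := by
    intro p q h
    rw [Matrix.diagonal_apply]
    by_cases hpq : p = q
    · subst hpq
      have h' : p ≠ i := by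
        rcases h with h | h <;> simpa using h
      rw [if_pos rfl, if_pos rfl, if_neg h']
    · rw [if_neg hpq, if_neg hpq]
  exact key

/-- the weight of `T_pq v` -/
theorem wt_T {ρ : URep n} {D : Matrix (Fin n) (Fin n) ℂ →ₗ[ℂ] (ρ.Sp →L[ℂ] ρ.Sp)}
    (hD : IsDer ρ D) {i l : Fin n} (hil : l ≠ i) (p q : Fin n) {v : ρ.Sp} (hv : TInv ρ v) :
    ρ.op (dg i) (Tz ρ D p q l v) = ((if p = i then Complex.I else 1) *
      conj (if q = i then Complex.I else 1)) • Tz ρ D p q l v := by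
  have hl : ∀ m, ((dg i : UU n) : Matrix (Fin n) (Fin n) ℂ) m l = if m = l then 1 else 0 := by
    intro m
    change (Matrix.diagonal fun k => if k = i then Complex.I else 1 :
      Matrix (Fin n) (Fin n) ℂ) m l = _
    rw [Matrix.diagonal_apply]
    by_cases h : m = l
    · rw [if_pos h, if_pos h, if_neg (by rw [h]; exact hil)]
    · rw [if_neg h, if_neg h]
  rw [op_T hD (dg i) hl p q (hv i (dg i) (dg_mem i))]
  have hd : ∀ a b, ((dg i : UU n) : Matrix (Fin n) (Fin n) ℂ) a b =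
      if a = b then (if a = i then Complex.I else 1) else 0 := by
    intro a b
    change (Matrix.diagonal fun k => if k = i then Complex.I else 1 :
      Matrix (Fin n) (Fin n) ℂ) a b = _
    rw [Matrix.diagonal_apply]
  rw [Finset.sum_eq_single p, Finset.sum_eq_single q]
  · rw [hd, hd, if_pos rfl, if_pos rfl]
  · intro m _ hm
    rw [hd m q, if_neg hm, map_zero, mul_zero, zero_smul]
  · intro h
    exact absurd (Finset.mem_univ _) h
  · intro k _ hk
    refine Finset.sum_eq_zero fun m _ => ?_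
    rw [hd k p, if_neg hk, zero_mul, zero_smul]
  · intro h
    exact absurd (Finset.mem_univ _) h

/-- vectors of different weight are orthogonal -/
theorem orth {ρ : URep n} (g : UU n) {x y : ρ.Sp} {a b : ℂ} (hx : ρ.op g x = a • x)
    (hy : ρ.op g y = b • y) (hab : conj a * b ≠ 1) : (inner ℂ x y : ℂ) = 0 := by
  have h := op_inner ρ g x y
  rw [hx, hy, inner_smul_left, inner_smul_right, ← mul_assoc] at h
  have h2 : (conj a * b - 1) * (inner ℂ x y : ℂ) = 0 := by
    rw [sub_mul, one_mul]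
    exact sub_eq_zero.2 h
  rcases mul_eq_zero.1 h2 with h3 | h3
  · exact absurd (sub_eq_zero.1 h3) hab
  · exact h3

theorem gr2 : GR2Stmt := by
  intro n ρ D hD S l hl v v' hv hv' hS hS' i hi j hj hij
  have hli : l ≠ i := fun h => hl (h ▸ hi)
  have hlj : l ≠ j := fun h => hl (h ▸ hj)
  -- the reflections
  have key : ∀ (t : ℝ) (w : ρ.Sp), Fx ρ S w → ∀ (p q : Fin n) (a b a' b' : ℝ),
      (∀ k, rf i j t k p = if k = i then (a : ℂ) else if k = j then (b : ℂ) else 0) →
      (∀ k, rf i j t k q = if k = i then (a' : ℂ) else if k = j then (b' : ℂ) else 0) →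
      ρ.op (rfU hij t) (Tz ρ D p q l w) =
        ((a * a' : ℝ) : ℂ) • Tz ρ D i i l w + ((a * b' : ℝ) : ℂ) • Tz ρ D i j l w +
        ((b * a' : ℝ) : ℂ) • Tz ρ D j i l w + ((b * b' : ℝ) : ℂ) • Tz ρ D j j l w := by
    intro t w hw p q a b a' b' h1 h2
    rw [op_T hD (rfU hij t) (rfU_l hij t hli hlj) p q (hw _ (rfU_mem hij t hi hj))]
    exact sum_four hij a b a' b' (fun k => rf i j t k p) (fun k => rf i j t k q) h1 h2
      (fun k m => Tz ρ D k m l w)
  have s1 : ∀ w : ρ.Sp, Fx ρ S w → ρ.op (rfU hij 1) (Tz ρ D i i l w) = Tz ρ D j j l w := by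
    intro w hw
    rw [key 1 w hw i i _ _ _ _ (rf_i hij 1) (rf_i hij 1)]
    norm_num
  have s2 : ∀ w : ρ.Sp, Fx ρ S w → ρ.op (rfU hij 1) (Tz ρ D j j l w) = Tz ρ D i i l w := by
    intro w hw
    rw [key 1 w hw j j _ _ _ _ (rf_j hij 1) (rf_j hij 1)]
    norm_num
  have s3 : ∀ w : ρ.Sp, Fx ρ S w → ρ.op (rfU hij 1) (Tz ρ D i j l w) = Tz ρ D j i l w := by
    intro w hw
    rw [key 1 w hw i j _ _ _ _ (rf_i hij 1) (rf_j hij 1)]
    norm_num
  have s4 : ∀ w : ρ.Sp, Fx ρ S w → ρ.op (rfU hij 2) (Tz ρ D i i l w) =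
      (9 / 25 : ℂ) • Tz ρ D i i l w + (-(12 / 25) : ℂ) • Tz ρ D i j l w +
      (-(12 / 25) : ℂ) • Tz ρ D j i l w + (16 / 25 : ℂ) • Tz ρ D j j l w := by
    intro w hw
    rw [key 2 w hw i i _ _ _ _ (rf_i hij 2) (rf_i hij 2)]
    norm_num
  -- symmetric inner products
  have a1 : (inner ℂ (Tz ρ D j j l v) (Tz ρ D j j l v') : ℂ) =
      inner ℂ (Tz ρ D i i l v) (Tz ρ D i i l v') := by
    rw [← s1 v hS, ← s1 v' hS', op_inner]
  have a2 : (inner ℂ (Tz ρ D j j l v) (Tz ρ D i i l v') : ℂ) =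
      inner ℂ (Tz ρ D i i l v) (Tz ρ D j j l v') := by
    have h := op_inner ρ (rfU hij 1) (Tz ρ D i i l v) (Tz ρ D j j l v')
    rw [s1 v hS, s2 v' hS'] at h
    exact h
  have a3 : (inner ℂ (Tz ρ D j i l v) (Tz ρ D j i l v') : ℂ) =
      inner ℂ (Tz ρ D i j l v) (Tz ρ D i j l v') := by
    rw [← s3 v hS, ← s3 v' hS', op_inner]
  -- weights
  have w1 : ∀ w : ρ.Sp, TInv ρ w → ρ.op (dg i) (Tz ρ D i i l w) = (1 : ℂ) • Tz ρ D i i l w := by
    intro w hw
    rw [wt_T hD hli i i hw, if_pos rfl, Complex.conj_I]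
    simp
  have w2 : ∀ w : ρ.Sp, TInv ρ w → ρ.op (dg i) (Tz ρ D i j l w) = Complex.I • Tz ρ D i j l w := by
    intro w hw
    rw [wt_T hD hli i j hw, if_pos rfl, if_neg hij.symm, map_one, mul_one]
  have w3 : ∀ w : ρ.Sp, TInv ρ w → ρ.op (dg i) (Tz ρ D j i l w) =
      (-Complex.I) • Tz ρ D j i l w := by
    intro w hw
    rw [wt_T hD hli j i hw, if_pos rfl, if_neg hij.symm, Complex.conj_I, one_mul]
  have w4 : ∀ w : ρ.Sp, TInv ρ w → ρ.op (dg i) (Tz ρ D j j l w) = (1 : ℂ) • Tz ρ D j j l w := by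
    intro w hw
    rw [wt_T hD hli j j hw, if_neg hij.symm, map_one, mul_one]
  have nI : (Complex.I : ℂ) ≠ 1 := by
    intro h
    have := congrArg Complex.re h
    simp at this
  have nI' : (-Complex.I : ℂ) ≠ 1 := by
    intro h
    have := congrArg Complex.re h
    simp at this
  have nm : (-1 : ℂ) ≠ 1 := by norm_num
  have z1 := orth (dg i) (w1 v hv) (w2 v' hv') (by simpa using nI)
  have z2 := orth (dg i) (w1 v hv) (w3 v' hv') (by simpa using nI')
  have z3 := orth (dg i) (w2 v hv) (w1 v' hv') (by simpa using nI')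
  have z4 := orth (dg i) (w2 v hv) (w3 v' hv') (by simpa using nm)
  have z5 := orth (dg i) (w2 v hv) (w4 v' hv') (by simpa using nI')
  have z6 := orth (dg i) (w3 v hv) (w1 v' hv') (by simpa using nI)
  have z7 := orth (dg i) (w3 v hv) (w2 v' hv') (by simpa using nm)
  have z8 := orth (dg i) (w3 v hv) (w4 v' hv') (by simpa using nI)
  have z9 := orth (dg i) (w4 v hv) (w2 v' hv') (by simpa using nI)
  have z10 := orth (dg i) (w4 v hv) (w3 v' hv') (by simpa using nI')
  have h := op_inner ρ (rfU hij 2) (Tz ρ D i i l v) (Tz ρ D i i l v')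
  rw [s4 v hS, s4 v' hS'] at h
  simp only [inner_add_left, inner_add_right, inner_smul_left, inner_smul_right] at h
  rw [z1, z2, z3, z4, z5, z6, z7, z8, z9, z10, a1, a2, a3] at h
  simp only [map_div₀, map_neg, Complex.conj_ofNat, mul_zero, add_zero, zero_add] at h
  linear_combination (-(625 / 288) : ℂ) * h

end Pool.Agent.UTR.H10
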